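import Pool.Agent.Helper8.LD5.FNB
import Pool.Agent.Helper77.LD5.FW

/-!
# Project LD5, block FW3: children with a boundary, for the combined family (final form)
-/

set_option autoImplicit false

namespace Pool.Agent.Helper8.LD5

open Set MeasureTheory Filter Topology
open Pool.Agent.Helper41.LD3 (Cst Us tm fr lamG ll)
open Pool.Agent.Helper41.LD4
open Pool.Agent.Helper41.LD5

section

variable {A₀ : ℝ} {P Q m m' e : ℕ} {x y a ℓ : ℝ}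

/-- small changes of the point: `(x / a) ^ (m / P - 1) ≤ exp (m δ)` -/
theorem fp_near (hA : 0 < A₀) (hP : 1 ≤ P) (hm : P ≤ m) {K : ℕ} (hm2 : m ≤ 2 ^ (3 * K)) {δ : ℝ} (ha : 1 ≤ a) (hax : a ≤ x) (hxa : x ≤ a + δ)
    (hδ : δ * 2 ^ (4 * K + 1) ≤ 1) : fp A₀ P m x ≤ fp A₀ P m a * (1 + 2 ^ (3 * K + 1) * δ) := by
  have hδ0 : 0 ≤ δ := by linarith
  have ha0 : 0 < a := by linarith
  have hx0 : 0 < x := by linarith
  have hP0 : (0 : ℝ) < P := by exact_mod_cast hP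
  have hm0 : (0 : ℝ) ≤ m := Nat.cast_nonneg m
  set r : ℝ := (m : ℝ) / P - 1 with hr
  have hr0 : 0 ≤ r := by
    rw [hr, sub_nonneg, le_div_iff₀ hP0, one_mul]
    exact_mod_cast hm
  have hrm : r ≤ m := by
    have : (m : ℝ) / P ≤ m := div_le_self hm0 (by exact_mod_cast hP)
    linarith
  have h1 : x ≤ a * (1 + δ) := by nlinarith
  have h2 : x ^ r ≤ a ^ r * Real.exp (δ * m) := by
    calc x ^ r ≤ (a * (1 + δ)) ^ r := Real.rpow_le_rpow hx0.le h1 hr0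
      _ = a ^ r * (1 + δ) ^ r := Real.mul_rpow ha0.le (by linarith)
      _ ≤ a ^ r * Real.exp (δ * m) := by
          refine mul_le_mul_of_nonneg_left ?_ (by positivity)
          calc (1 + δ) ^ r ≤ (Real.exp δ) ^ r :=
                Real.rpow_le_rpow (by linarith) (by linarith [Real.add_one_le_exp δ]) hr0
            _ = Real.exp (δ * r) := by rw [← Real.exp_mul]
            _ ≤ _ := Real.exp_le_exp.2 (mul_le_mul_of_nonneg_left hrm hδ0)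
  have hm3 : (m : ℝ) ≤ 2 ^ (3 * K) := by exact_mod_cast hm2
  have hδm : δ * m ≤ δ * 2 ^ (3 * K) := mul_le_mul_of_nonneg_left hm3 hδ0
  have hy : δ * m ≤ 1 / 2 := by
    have h3 : δ * 2 ^ (3 * K + 1) ≤ 1 :=
      le_trans (mul_le_mul_of_nonneg_left (pow_le_pow_right₀ (by norm_num) (by omega)) hδ0) hδ
    rw [pow_succ] at h3
    linarith
  have hy0 : 0 ≤ δ * m := by positivity
  have h3 : Real.exp (δ * m) ≤ 1 + 2 ^ (3 * K + 1) * δ := by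
    have h4 := Real.exp_bound_div_one_sub_of_interval hy0 (by linarith)
    have h5 : 1 / (1 - δ * m) ≤ 1 + 2 * (δ * m) := by
      rw [div_le_iff₀ (by linarith)]
      nlinarith
    have h6 : 2 * (δ * m) ≤ 2 ^ (3 * K + 1) * δ := by
      rw [pow_succ]
      linarith
    linarith
  have h4 : x ^ r ≤ a ^ r * (1 + 2 ^ (3 * K + 1) * δ) :=
    h2.trans (mul_le_mul_of_nonneg_left h3 (by positivity))
  unfold fp
  rw [← hr]
  calc A₀ * ((m : ℝ) / P) * x ^ r ≤ A₀ * ((m : ℝ) / P) * (a ^ r * (1 + 2 ^ (3 * K + 1) * δ)) :=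
        mul_le_mul_of_nonneg_left h4 (by positivity)
    _ = _ := by ring

end

section

variable {F : Fam} {κ D K : ℕ} {a₀ ℓst a ℓ x : ℝ} {m e : ℕ}

open Classical in
/-- FW3: children with a boundary -/
theorem fam_nb (hF : F.Ok) (hκ : 1 ≤ κ) (B : F.Big κ D K) (S : F.St κ D K a₀ ℓst) (hℓ : 0 < ℓ) (h1 : a₀ ≤ a) (h2 : a + ℓ ≤ a₀ + ℓst)
    (hcount : ∀ s < (F.g + 1) * F.Q, F.T a₀ ℓst s (ℓ / 2 ^ (K ^ (2 * κ + 1))) + F.R * K ≤ 2 ^ (2 * K)) {s : ℕ} (hs : s < (F.g + 1) * F.Q) :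
    (((Finset.range (2 ^ (K ^ (2 * κ + 1)))).filter fun b : ℕ => ¬ NBg (F.U a₀ ℓst s) (F.T a₀ ℓst s (ℓ / 2 ^ (K ^ (2 * κ + 1)))) (F.R * K)
      (sysN (F.ty5 (s / F.Q)).2.1 K) (a + b * (ℓ / (2 ^ (K ^ (2 * κ + 1)) : ℕ))) (ℓ / (2 ^ (K ^ (2 * κ + 1)) : ℕ))).card : ℝ) ≤
      sysN (F.ty5 (s / F.Q)).2.1 K * (2 * (F.τ5 (s / F.Q) ^ F.Q / (F.τ5 (s / F.Q) ^ F.Q - 1))) * (F.τ5 (s / F.Q) ^ F.Q)⁻¹ ^ (F.R * K) *
        (2 ^ (K ^ (2 * κ + 1)) : ℕ) + F.T a₀ ℓst s (ℓ / 2 ^ (K ^ (2 * κ + 1))) :=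
  fam_nb_of (fun hA hP hm _ hm2 _ ha hax hxa hδ => fp_near hA hP hm hm2 ha hax hxa hδ)
    (fun hF hK h1 h2 hℓ hℓK e => Pool.Agent.Helper41.LD5.tp_big hF hK h1 h2 hℓ hℓK e)
    (fun hF hκ B S he _ hj => Pool.Agent.Helper41.LD5.tp_bound hF hκ B S he hj)
    (fun hF hκ B S _ hs => Pool.Agent.Helper77.LD5.fam_Sq hF hκ B S hs) hF hκ B S hℓ h1 h2 hcount hs

end

end Pool.Agent.Helper8.LD5
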