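import Pool.Agent.Helper8.LD5.FNB2

/-!
# Project LD5, block FPA: nearly linear on the windows of a stage
-/

set_option autoImplicit false

namespace Pool.Agent.Helper8.LD5

open Set MeasureTheory Filter Topology
open Pool.Agent.Helper41.LD3 (Cst Us tm fr lamG ll)
open Pool.Agent.Helper41.LD4
open Pool.Agent.Helper41.LD5

section

variable {F : Fam} {κ D K : ℕ} {a₀ ℓst a ℓ x : ℝ} {m e : ℕ}

/-- nearly linear on the windows of a stage -/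
theorem pwf_lin (hF : F.Ok) (hκ : 1 ≤ κ) (hK : 100 ≤ K) (hm : F.P ≤ m) (hm2 : m ≤ 2 ^ (3 * K)) (ha : F.x₁ ≤ a) (hℓ : 0 < ℓ)
    (hsm : ℓ * 2 ^ (K ^ (2 * κ + 2)) ≤ 1) (hV : fp F.A₀ F.P m a * ℓ ≤ 2 ^ (K ^ (2 * κ + 1) + 30 * K)) :
    ∀ x ∈ Icc a (a + ℓ), |pwf F.A₀ F.cp F.P m x - (fp F.A₀ F.P m a * x + (pwf F.A₀ F.cp F.P m a - fp F.A₀ F.P m a * a))| ≤ (1 / 2) ^ (16 * K) := by
  intro x hx
  have ha1 : 1 ≤ a := hF.h1.le.trans ha
  have hA := hF.hA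
  have hP := hF.hP
  have hm1 : 1 ≤ m := hP.trans hm
  have hpos : 0 < fp F.A₀ F.P m a := Pool.Agent.Helper77.LD5.fpos hA hP hm1 (by linarith)
  rcases hx.1.eq_or_lt with rfl | hax
  · have e : pwf F.A₀ F.cp F.P m a - (fp F.A₀ F.P m a * a + (pwf F.A₀ F.cp F.P m a - fp F.A₀ F.P m a * a)) = 0 := by ring
    rw [e, abs_zero]
    positivity
  · have hd : ∀ t, 0 < t → HasDerivAt (pwf F.A₀ F.cp F.P m) (fp F.A₀ F.P m t) t := fun t ht =>
      Pool.Agent.Helper77.LD5.pderiv F.A₀ F.P m F.cp ht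
    obtain ⟨ξ, hξ, h1⟩ := exists_hasDerivAt_eq_slope (pwf F.A₀ F.cp F.P m) (fp F.A₀ F.P m) hax
      (fun t ht => (hd t (by linarith [ht.1])).continuousAt.continuousWithinAt) (fun t ht => hd t (by linarith [ht.1]))
    have hxa : 0 < x - a := by linarith
    rw [eq_div_iff hxa.ne'] at h1
    have h2 : fp F.A₀ F.P m a ≤ fp F.A₀ F.P m ξ := Pool.Agent.Helper77.LD5.fmono hA hP hm (by linarith) hξ.1.le
    have hδ : ℓ * 2 ^ (4 * K + 1) ≤ 1 := by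
      refine le_trans ?_ hsm
      exact mul_le_mul_of_nonneg_left (pow_le_pow_right₀ (by norm_num) (four_le hκ hK)) hℓ.le
    have h3 : fp F.A₀ F.P m ξ ≤ fp F.A₀ F.P m a * (1 + 2 ^ (3 * K + 1) * ℓ) :=
      fp_near hA hP hm hm2 ha1 hξ.1.le (by linarith [hξ.2, hx.2]) hδ
    have e : pwf F.A₀ F.cp F.P m x - (fp F.A₀ F.P m a * x + (pwf F.A₀ F.cp F.P m a - fp F.A₀ F.P m a * a)) =
        (fp F.A₀ F.P m ξ - fp F.A₀ F.P m a) * (x - a) := by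
      rw [sub_mul, h1]
      ring
    rw [e, abs_of_nonneg (mul_nonneg (by linarith) hxa.le)]
    have h4 : (fp F.A₀ F.P m ξ - fp F.A₀ F.P m a) * (x - a) ≤ (fp F.A₀ F.P m a * (2 ^ (3 * K + 1) * ℓ)) * ℓ := by
      refine mul_le_mul (by linarith) (by linarith [hx.2]) hxa.le (by positivity)
    refine h4.trans ?_
    have h5 : (fp F.A₀ F.P m a * (2 ^ (3 * K + 1) * ℓ)) * ℓ = (fp F.A₀ F.P m a * ℓ) * (2 ^ (3 * K + 1) * ℓ) := by ring
    rw [h5]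
    have h6 : (fp F.A₀ F.P m a * ℓ) * (2 ^ (3 * K + 1) * ℓ) ≤ 2 ^ (K ^ (2 * κ + 1) + 30 * K) * (2 ^ (3 * K + 1) * ℓ) :=
      mul_le_mul_of_nonneg_right hV (by positivity)
    refine h6.trans ?_
    have h7 : (K ^ (2 * κ + 1) + 30 * K) + (3 * K + 1) + 16 * K ≤ K ^ (2 * κ + 2) := by
      have g1 : K ^ (2 * κ + 2) = K * K ^ (2 * κ + 1) := by rw [pow_succ]; ring
      have g2 : K ^ 1 ≤ K ^ (2 * κ + 1) := Nat.pow_le_pow_right (by omega) (by omega)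
      rw [pow_one] at g2
      rw [g1]
      nlinarith
    have h8 : (2 : ℝ) ^ (K ^ (2 * κ + 1) + 30 * K) * (2 ^ (3 * K + 1) * ℓ) * 2 ^ (16 * K) ≤ 1 := by
      calc (2 : ℝ) ^ (K ^ (2 * κ + 1) + 30 * K) * (2 ^ (3 * K + 1) * ℓ) * 2 ^ (16 * K) =
          ℓ * 2 ^ ((K ^ (2 * κ + 1) + 30 * K) + (3 * K + 1) + 16 * K) := by
            rw [pow_add, pow_add]
            ring
        _ ≤ ℓ * 2 ^ (K ^ (2 * κ + 2)) := mul_le_mul_of_nonneg_left (pow_le_pow_right₀ (by norm_num) h7) hℓ.le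
        _ ≤ 1 := hsm
    have h9 : (0 : ℝ) < 2 ^ (16 * K) := by positivity
    rw [one_div, inv_pow, le_inv_comm₀ (by positivity) h9, inv_eq_one_div, le_div_iff₀ (by positivity)]
    linarith

end

end Pool.Agent.Helper8.LD5
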