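import Pool.Agent.Helper41.LD5.Defs
import Pool.Agent.Helper8.LD4.N1

/-!
# Project LD5, block SQ3: children with a boundary of the grid in the image at an old time, general sequences
-/

set_option autoImplicit false

namespace Pool.Agent.Helper8.LD5

open Set MeasureTheory Filter Topology
open Pool.Agent.Helper41.LD4
open Pool.Agent.Helper41.LD5

section

variable {N₀ N₀' m m₁ m₂ K : ℕ} {w w' : ℝ} {f f' : ℝ → ℝ} {U V U' V' : ℝ → ℝ} {p q a ℓ : ℝ}

lemma cv_monoOn (h : Cv U V p q) : MonotoneOn U (Icc p q) := by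
  refine monotoneOn_of_deriv_nonneg (convex_Icc p q) (fun x hx => (h.der x hx).continuousAt.continuousWithinAt)
    (fun x hx => (h.der x (interior_subset hx)).differentiableAt.differentiableWithinAt) fun x hx => ?_
  rw [(h.der x (interior_subset hx)).deriv]
  exact (h.pos x (interior_subset hx)).le

/-- the mean value theorem -/
lemma cv_sub_le (h : Cv U V p q) (hpq : p ≤ q) : U q - U p ≤ V q * (q - p) := by
  have hq : q ∈ Icc p q := right_mem_Icc.2 hpq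
  have h1 := (convex_Icc p q).image_sub_le_mul_sub_of_deriv_le (f := U) (C := V q)
    (fun x hx => (h.der x hx).continuousAt.continuousWithinAt)
    (fun x hx => (h.der x (interior_subset hx)).differentiableAt.differentiableWithinAt)
    (fun x hx => by
      rw [(h.der x (interior_subset hx)).deriv]
      exact h.mono (interior_subset hx) hq (interior_subset hx).2)
  exact h1 p (left_mem_Icc.2 hpq) q hq hpq

lemma sq_geo {U V : ℕ → ℝ → ℝ} {β : ℝ} (h : Sq U V β p q) {x : ℝ} (hx : x ∈ Icc p q) {j k : ℕ} (hjk : j ≤ k) :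
    V j x ≤ β⁻¹ ^ (k - j) * V k x := by
  have hβ := h.hβ
  have hβ0 : 0 < β := by linarith
  obtain ⟨i, rfl⟩ := Nat.exists_eq_add_of_le hjk
  rw [Nat.add_sub_cancel_left]
  induction i with
  | zero => simp
  | succ i ih =>
    refine (ih (by omega)).trans ?_
    have h1 := h.grow (j + i) x hx
    rw [pow_succ, mul_assoc]
    refine mul_le_mul_of_nonneg_left ?_ (by positivity)
    rw [← add_assoc, ← div_eq_inv_mul, le_div_iff₀ hβ0]
    linarith

open Classical in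
/-- SQ3: children with a boundary of the grid at an old time -/
theorem sq_nb {U V : ℕ → ℝ → ℝ} {β : ℝ} (h : Sq U V β a (a + ℓ)) (hℓ : 0 < ℓ) {B : ℕ} (hB : 1 ≤ B) (hN : 1 ≤ N₀) {n r : ℕ}
    (hend : ∀ j < n, V j (a + ℓ) * (ℓ / B) ≤ 2) :
    (((Finset.range B).filter fun b : ℕ => ¬ NBg U n r N₀ (a + b * (ℓ / B)) (ℓ / B)).card : ℝ) ≤
      N₀ * (2 * (β / (β - 1))) * β⁻¹ ^ r * B + n := by
  have hβ := h.hβ
  have hβ0 : 0 < β := by linarith
  have hβ1 : 0 < β - 1 := by linarith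
  have hB0 : (0 : ℝ) < B := by exact_mod_cast hB
  have hδ : 0 < ℓ / B := by positivity
  have hmono : ∀ j : ℕ, MonotoneOn (U j) (Icc a (a + ℓ)) := fun j => cv_monoOn (h.cv j)
  have hmem : ∀ b : ℕ, b ≤ B → a + b * (ℓ / B) ∈ Icc a (a + ℓ) := by
    intro b hb
    have h1 : (b : ℝ) ≤ B := by exact_mod_cast hb
    have h2 : (b : ℝ) * (ℓ / B) ≤ B * (ℓ / B) := mul_le_mul_of_nonneg_right h1 hδ.le
    rw [mul_div_cancel₀ _ hB0.ne'] at h2
    have h3 : 0 ≤ (b : ℝ) * (ℓ / B) := by positivity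
    constructor <;> linarith
  rcases Nat.lt_or_ge r n with hr | hr
  swap
  · have h0 : ((Finset.range B).filter fun b : ℕ => ¬ NBg U n r N₀ (a + b * (ℓ / B)) (ℓ / B)) = ∅ := by
      refine Finset.filter_eq_empty_iff.2 fun b _ hb => hb ?_
      intro j hj
      omega
    rw [h0, Finset.card_empty, Nat.cast_zero]
    positivity
  have hsub : ((Finset.range B).filter fun b : ℕ => ¬ NBg U n r N₀ (a + b * (ℓ / B)) (ℓ / B)) ⊆
      (Finset.range (n - r)).biUnion fun j => (Finset.range B).filter fun b : ℕ =>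
        ⌊(N₀ : ℝ) * U j (a + b * (ℓ / B))⌋ < ⌊(N₀ : ℝ) * U j (a + (b + 1 : ℕ) * (ℓ / B))⌋ := by
    intro b hb
    rw [Finset.mem_filter] at hb
    obtain ⟨hb1, hb2⟩ := hb
    rw [Finset.mem_range] at hb1
    unfold NBg at hb2
    push Not at hb2
    obtain ⟨j, hj, x, hx, hne⟩ := hb2
    rw [Finset.mem_biUnion]
    refine ⟨j, Finset.mem_range.2 (by omega), Finset.mem_filter.2 ⟨Finset.mem_range.2 hb1, ?_⟩⟩
    have h2K : (0 : ℝ) ≤ N₀ := by positivity
    have h3 : a + ((b + 1 : ℕ) : ℝ) * (ℓ / B) = a + b * (ℓ / B) + ℓ / B := by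
      push_cast
      ring
    have hL := hmem b hb1.le
    have hR := hmem (b + 1) hb1
    have hx' : x ∈ Icc a (a + ℓ) := by
      rw [h3] at hR
      exact ⟨hL.1.trans hx.1, hx.2.trans hR.2⟩
    have h1 : ⌊(N₀ : ℝ) * U j (a + b * (ℓ / B))⌋ ≤ ⌊(N₀ : ℝ) * U j x⌋ :=
      Int.floor_le_floor (mul_le_mul_of_nonneg_left (hmono j hL hx' hx.1) h2K)
    have h2 : ⌊(N₀ : ℝ) * U j x⌋ ≤ ⌊(N₀ : ℝ) * U j (a + (b + 1 : ℕ) * (ℓ / B))⌋ := by
      refine Int.floor_le_floor (mul_le_mul_of_nonneg_left (hmono j hx' hR ?_) h2K)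
      rw [h3]
      exact hx.2
    exact (lt_of_le_of_ne h1 (Ne.symm hne)).trans_le h2
  have hone : ∀ j ∈ Finset.range (n - r), (((Finset.range B).filter fun b : ℕ =>
      ⌊(N₀ : ℝ) * U j (a + b * (ℓ / B))⌋ < ⌊(N₀ : ℝ) * U j (a + (b + 1 : ℕ) * (ℓ / B))⌋).card : ℝ) ≤
      N₀ * 2 * B * β⁻¹ ^ (n - 1 - j) + 1 := by
    intro j hj
    rw [Finset.mem_range] at hj
    have h1 := Pool.Agent.Helper8.LD4.card_grid hℓ (hmono j) N₀ hB
    refine h1.trans ?_
    have hr' : a + ℓ ∈ Icc a (a + ℓ) := ⟨by linarith, le_rfl⟩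
    have h2 : U j (a + ℓ) - U j a ≤ V j (a + ℓ) * ℓ := by
      have := cv_sub_le (h.cv j) (by linarith)
      rwa [add_sub_cancel_left] at this
    have h3 : V j (a + ℓ) * ℓ ≤ 2 * B * β⁻¹ ^ (n - 1 - j) := by
      have h4 := sq_geo h hr' (show j ≤ n - 1 by omega)
      have h5 := hend (n - 1) (by omega)
      have h6 : V (n - 1) (a + ℓ) * ℓ ≤ 2 * B := by
        rw [← mul_div_assoc, div_le_iff₀ hB0] at h5
        exact h5
      calc V j (a + ℓ) * ℓ ≤ (β⁻¹ ^ (n - 1 - j) * V (n - 1) (a + ℓ)) * ℓ := mul_le_mul_of_nonneg_right h4 hℓ.le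
        _ = β⁻¹ ^ (n - 1 - j) * (V (n - 1) (a + ℓ) * ℓ) := by ring
        _ ≤ β⁻¹ ^ (n - 1 - j) * (2 * B) := mul_le_mul_of_nonneg_left h6 (by positivity)
        _ = _ := mul_comm _ _
    have h4 := mul_le_mul_of_nonneg_left (h2.trans h3) (by positivity : (0 : ℝ) ≤ N₀)
    linarith
  have hcard : (((Finset.range B).filter fun b : ℕ => ¬ NBg U n r N₀ (a + b * (ℓ / B)) (ℓ / B)).card : ℝ) ≤
      ∑ j ∈ Finset.range (n - r), (N₀ * 2 * B * β⁻¹ ^ (n - 1 - j) + 1) := by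
    have h1 := (Finset.card_le_card hsub).trans Finset.card_biUnion_le
    calc _ ≤ ((∑ j ∈ Finset.range (n - r), ((Finset.range B).filter fun b : ℕ =>
        ⌊(N₀ : ℝ) * U j (a + b * (ℓ / B))⌋ < ⌊(N₀ : ℝ) * U j (a + (b + 1 : ℕ) * (ℓ / B))⌋).card : ℕ) : ℝ) := by
          exact_mod_cast h1
      _ ≤ _ := by
          rw [Nat.cast_sum]
          exact Finset.sum_le_sum hone
  refine hcard.trans ?_
  rw [Finset.sum_add_distrib]
  refine add_le_add ?_ ?_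
  · rw [← Finset.mul_sum]
    calc N₀ * 2 * B * ∑ j ∈ Finset.range (n - r), β⁻¹ ^ (n - 1 - j) ≤ N₀ * 2 * B * (β / (β - 1) * β⁻¹ ^ r) :=
          mul_le_mul_of_nonneg_left (Pool.Agent.Helper8.LD3.geom_le hβ n r hr) (by positivity)
      _ = _ := by ring
  · rw [Finset.sum_const, Finset.card_range, nsmul_eq_mul, mul_one]
    exact_mod_cast Nat.sub_le n r

open Classical in
/-- SQ3b: children on which the test function is not constant -/
theorem cv_few (hf : Fn N₀ m w f) (hN : 1 ≤ N₀) (h : Cv U V a (a + ℓ)) (hℓ : 0 < ℓ) {B : ℕ} (hB : 1 ≤ B) :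
    (((Finset.range B).filter fun b : ℕ => ¬ ∃ v : ℝ, ∀ x ∈ Ioo (a + b * (ℓ / B)) (a + (b + 1) * (ℓ / B)), f (U x) = v).card : ℝ) ≤
      N₀ * (V (a + ℓ) * ℓ) + 1 := by
  have hB0 : (0 : ℝ) < B := by exact_mod_cast hB
  have hδ : 0 < ℓ / B := by positivity
  have hmono := cv_monoOn h
  have hmem : ∀ b : ℕ, b ≤ B → a + b * (ℓ / B) ∈ Icc a (a + ℓ) := by
    intro b hb
    have h1 : (b : ℝ) ≤ B := by exact_mod_cast hb
    have h2 : (b : ℝ) * (ℓ / B) ≤ B * (ℓ / B) := mul_le_mul_of_nonneg_right h1 hδ.le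
    rw [mul_div_cancel₀ _ hB0.ne'] at h2
    have h3 : 0 ≤ (b : ℝ) * (ℓ / B) := by positivity
    constructor <;> linarith
  have hsub : ((Finset.range B).filter fun b : ℕ => ¬ ∃ v : ℝ, ∀ x ∈ Ioo (a + b * (ℓ / B)) (a + (b + 1) * (ℓ / B)), f (U x) = v) ⊆
      (Finset.range B).filter fun b : ℕ =>
        ⌊(N₀ : ℝ) * U (a + b * (ℓ / B))⌋ < ⌊(N₀ : ℝ) * U (a + (b + 1 : ℕ) * (ℓ / B))⌋ := by
    intro b hb
    rw [Finset.mem_filter] at hb ⊢
    obtain ⟨hb1, hb2⟩ := hb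
    refine ⟨hb1, ?_⟩
    rw [Finset.mem_range] at hb1
    by_contra hlt
    refine hb2 ⟨f (U (a + b * (ℓ / B))), fun x hx => hf.grid _ _ ?_⟩
    have h2K : (0 : ℝ) ≤ N₀ := by positivity
    have hL := hmem b hb1.le
    have hR := hmem (b + 1) hb1
    have h3 : a + ((b : ℝ) + 1) * (ℓ / B) = a + ((b + 1 : ℕ) : ℝ) * (ℓ / B) := by
      push_cast
      ring
    rw [h3] at hx
    have hx' : x ∈ Icc a (a + ℓ) := ⟨hL.1.trans hx.1.le, hx.2.le.trans hR.2⟩
    have h1 : ⌊(N₀ : ℝ) * U (a + b * (ℓ / B))⌋ ≤ ⌊(N₀ : ℝ) * U x⌋ :=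
      Int.floor_le_floor (mul_le_mul_of_nonneg_left (hmono hL hx' hx.1.le) h2K)
    have h2 : ⌊(N₀ : ℝ) * U x⌋ ≤ ⌊(N₀ : ℝ) * U (a + (b + 1 : ℕ) * (ℓ / B))⌋ :=
      Int.floor_le_floor (mul_le_mul_of_nonneg_left (hmono hx' hR hx.2.le) h2K)
    exact le_antisymm (h2.trans (not_lt.1 hlt)) h1
  have h1 : (((Finset.range B).filter fun b : ℕ => ¬ ∃ v : ℝ, ∀ x ∈ Ioo (a + b * (ℓ / B)) (a + (b + 1) * (ℓ / B)),
      f (U x) = v).card : ℝ) ≤ (((Finset.range B).filter fun b : ℕ =>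
        ⌊(N₀ : ℝ) * U (a + b * (ℓ / B))⌋ < ⌊(N₀ : ℝ) * U (a + (b + 1 : ℕ) * (ℓ / B))⌋).card : ℝ) := by
    exact_mod_cast Finset.card_le_card hsub
  refine h1.trans ((Pool.Agent.Helper8.LD4.card_grid hℓ hmono N₀ hB).trans ?_)
  have h2 : U (a + ℓ) - U a ≤ V (a + ℓ) * ℓ := by
    have := cv_sub_le h (by linarith)
    rwa [add_sub_cancel_left] at this
  have h3 := mul_le_mul_of_nonneg_left h2 (by positivity : (0 : ℝ) ≤ N₀)
  linarith

end

end Pool.Agent.Helper8.LD5
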