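import Pool.Agent.Helper41.LD5.Defs2
import Pool.Agent.Helper8.LD5.SQ3

/-!
# Project LD5, block FW3: children with a boundary, for the combined family
-/

set_option autoImplicit false

namespace Pool.Agent.Helper8.LD5

open Set MeasureTheory Filter Topology
open Pool.Agent.Helper41.LD3 (Cst Us tm fr lamG ll)
open Pool.Agent.Helper41.LD4
open Pool.Agent.Helper41.LD5

theorem sq_sub {U V : ℕ → ℝ → ℝ} {β p q p' q' : ℝ} (h : Sq U V β p q) (h1 : p ≤ p') (h2 : q' ≤ q) : Sq U V β p' q' :=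
  ⟨h.hβ, fun j => (h.cv j).sub h1 h2, fun j x hx => h.grow j x ⟨h1.trans hx.1, hx.2.trans h2⟩⟩

section

variable {F : Fam} {κ D K : ℕ} {a₀ ℓst a ℓ x : ℝ} {m e : ℕ}

theorem four_le {κ K : ℕ} (hκ : 1 ≤ κ) (hK : 100 ≤ K) : 4 * K + 1 ≤ K ^ (2 * κ + 2) := by
  have h1 : K ^ 2 ≤ K ^ (2 * κ + 2) := Nat.pow_le_pow_right (by omega) (by omega)
  have h2 : 4 * K + 1 ≤ K ^ 2 := by nlinarith
  exact h2.trans h1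

open Classical in
/-- FW3 -/
theorem fam_nb_of
    (fp_near : ∀ {A₀ : ℝ} {P m : ℕ} {x a : ℝ}, 0 < A₀ → 1 ≤ P → P ≤ m → ∀ {K : ℕ}, m ≤ 2 ^ (3 * K) → ∀ {δ : ℝ}, 1 ≤ a → a ≤ x → x ≤ a + δ →
      δ * 2 ^ (4 * K + 1) ≤ 1 → fp A₀ P m x ≤ fp A₀ P m a * (1 + 2 ^ (3 * K + 1) * δ))
    (tp_big : ∀ {F : Fam} {K : ℕ} {a ℓ : ℝ}, F.Ok → 100 * F.Cx ^ 3 ≤ K → F.x₁ ≤ a → a ≤ F.x₂ → 0 < ℓ → ℓ * 2 ^ K ≤ 1 → ∀ e : ℕ,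
      4 * F.P * F.Q < F.Q * tp F.A₀ F.P F.Q e a ℓ + e)
    (tp_bound : ∀ {F : Fam} {κ D K : ℕ} {a₀ ℓst : ℝ} {e : ℕ}, F.Ok → 1 ≤ κ → F.Big κ D K → F.St κ D K a₀ ℓst → e < F.Q → ∀ {j : ℕ}, j ≤ 2 ^ (2 * K) →
      F.Q * (tp F.A₀ F.P F.Q e a₀ ℓst + j) + e ≤ 2 ^ (3 * K))
    (fam_Sq : ∀ {F : Fam} {κ D K : ℕ} {a₀ ℓst : ℝ}, F.Ok → 1 ≤ κ → F.Big κ D K → F.St κ D K a₀ ℓst → ∀ {s : ℕ}, s < (F.g + 1) * F.Q →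
      Sq (F.U a₀ ℓst s) (F.V a₀ ℓst s) (F.τ5 (s / F.Q) ^ F.Q) a₀ (a₀ + ℓst))
    (hF : F.Ok) (hκ : 1 ≤ κ) (B : F.Big κ D K) (S : F.St κ D K a₀ ℓst) (hℓ : 0 < ℓ) (h1 : a₀ ≤ a) (h2 : a + ℓ ≤ a₀ + ℓst)
    (hcount : ∀ s < (F.g + 1) * F.Q, F.T a₀ ℓst s (ℓ / 2 ^ (K ^ (2 * κ + 1))) + F.R * K ≤ 2 ^ (2 * K)) {s : ℕ} (hs : s < (F.g + 1) * F.Q) :
    (((Finset.range (2 ^ (K ^ (2 * κ + 1)))).filter fun b : ℕ => ¬ NBg (F.U a₀ ℓst s) (F.T a₀ ℓst s (ℓ / 2 ^ (K ^ (2 * κ + 1)))) (F.R * K)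
      (sysN (F.ty5 (s / F.Q)).2.1 K) (a + b * (ℓ / (2 ^ (K ^ (2 * κ + 1)) : ℕ))) (ℓ / (2 ^ (K ^ (2 * κ + 1)) : ℕ))).card : ℝ) ≤
      sysN (F.ty5 (s / F.Q)).2.1 K * (2 * (F.τ5 (s / F.Q) ^ F.Q / (F.τ5 (s / F.Q) ^ F.Q - 1))) * (F.τ5 (s / F.Q) ^ F.Q)⁻¹ ^ (F.R * K) *
        (2 ^ (K ^ (2 * κ + 1)) : ℕ) + F.T a₀ ℓst s (ℓ / 2 ^ (K ^ (2 * κ + 1))) := by
  have hsq := sq_sub (fam_Sq hF hκ B S hs) h1 h2
  have hN : 1 ≤ sysN (F.ty5 (s / F.Q)).2.1 K := by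
    unfold sysN
    split_ifs with h
    · exact Nat.one_le_two_pow
    · exact Nat.mul_pos (Nat.pos_of_ne_zero h) (by positivity)
  have hQ : 1 ≤ F.Q := hF.H.base.hQ
  set Λ := K ^ (2 * κ + 1) with hΛ
  have hcast : ((2 ^ Λ : ℕ) : ℝ) = 2 ^ Λ := by push_cast; rfl
  refine sq_nb hsq hℓ (Nat.one_le_two_pow) hN fun j hj => ?_
  rw [hcast]
  have hδ : 0 < ℓ / 2 ^ Λ := by positivity
  have hcs := hcount s hs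
  unfold Fam.T at hj hcs
  unfold Fam.V
  by_cases hsg : s / F.Q < F.g
  · rw [if_pos hsg] at hj ⊢
    have h3 : tm F.τ5 F.Q s ℓst + j < tm F.τ5 F.Q s (ℓ / 2 ^ Λ) := by omega
    have h4 := Nat.notMem_of_lt_sInf (s := {j : ℕ | 1 ≤ fr F.τ5 F.Q s j * (ℓ / 2 ^ Λ)}) h3
    simp only [mem_setOf_eq, not_le] at h4
    linarith
  · rw [if_neg hsg] at hj hcs ⊢
    set e := s % F.Q with he
    have heQ : e < F.Q := Nat.mod_lt _ hQ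
    have h3 : tp F.A₀ F.P F.Q e a₀ ℓst + j < tp F.A₀ F.P F.Q e a₀ (ℓ / 2 ^ Λ) := by omega
    have h4 := Nat.notMem_of_lt_sInf (s := {j : ℕ | 1 ≤ fp F.A₀ F.P (F.Q * j + e) a₀ * (ℓ / 2 ^ Λ)}) h3
    simp only [mem_setOf_eq, not_le] at h4
    have hj2 : j ≤ 2 ^ (2 * K) := by omega
    have h5 := tp_bound hF hκ B S heQ hj2
    have hsm : ℓst * 2 ^ (4 * K + 1) ≤ 1 := by
      refine le_trans ?_ S.sm
      exact mul_le_mul_of_nonneg_left (pow_le_pow_right₀ (by norm_num) (four_le hκ B.hK)) S.pos.le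
    have hsmK : ℓst * 2 ^ K ≤ 1 := by
      refine le_trans ?_ hsm
      exact mul_le_mul_of_nonneg_left (pow_le_pow_right₀ (by norm_num) (by omega)) S.pos.le
    have h6 := tp_big hF B.hCx S.lo (by have := S.hi; have := S.pos; linarith) S.pos hsmK e
    have hPm : F.P ≤ F.Q * (tp F.A₀ F.P F.Q e a₀ ℓst + j) + e := by
      have h7 : F.P ≤ 4 * F.P * F.Q := by nlinarith [hF.hP]
      have h8 : F.Q * tp F.A₀ F.P F.Q e a₀ ℓst ≤ F.Q * (tp F.A₀ F.P F.Q e a₀ ℓst + j) := Nat.mul_le_mul_left _ (by omega)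
      omega
    have ha1 : 1 ≤ a₀ := hF.h1.le.trans S.lo
    have h9 := fp_near hF.hA hF.hP hPm h5 (δ := ℓst) (x := a + ℓ) ha1 (by linarith) h2 hsm
    have h10 : (2 : ℝ) ^ (3 * K + 1) * ℓst ≤ 1 := by
      refine le_trans ?_ hsm
      rw [mul_comm]
      exact mul_le_mul_of_nonneg_left (pow_le_pow_right₀ (by norm_num) (by omega)) S.pos.le
    have h11 : 0 ≤ fp F.A₀ F.P (F.Q * (tp F.A₀ F.P F.Q e a₀ ℓst + j) + e) a₀ := by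
      unfold fp
      have := hF.hA
      positivity
    calc fp F.A₀ F.P (F.Q * (tp F.A₀ F.P F.Q e a₀ ℓst + j) + e) (a + ℓ) * (ℓ / 2 ^ Λ) ≤
        (fp F.A₀ F.P (F.Q * (tp F.A₀ F.P F.Q e a₀ ℓst + j) + e) a₀ * (1 + 2 ^ (3 * K + 1) * ℓst)) * (ℓ / 2 ^ Λ) :=
          mul_le_mul_of_nonneg_right h9 hδ.le
      _ ≤ (fp F.A₀ F.P (F.Q * (tp F.A₀ F.P F.Q e a₀ ℓst + j) + e) a₀ * (1 + 1)) * (ℓ / 2 ^ Λ) := by gcongr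
      _ = 2 * (fp F.A₀ F.P (F.Q * (tp F.A₀ F.P F.Q e a₀ ℓst + j) + e) a₀ * (ℓ / 2 ^ Λ)) := by ring
      _ ≤ 2 := by linarith

end

end Pool.Agent.Helper8.LD5
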